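import Pool.Agent.H524.LD.Par
import Pool.Agent.H985.KP.Loc2
import Pool.Agent.H604.LD.Stm

/-!
# Project Landau in characteristic two (helper604): task PARINF
-/

namespace Pool.Agent.H524.LD

open Polynomial
open scoped Classical
open Pool.Agent.H985.Chow (mob lc)
open Pool.Agent.H985.KP (sg)

theorem parinf_sg {K : Type} [Field K] [Fintype K] [CharP K 2] (a : K[X]) (ha : a.Monic)
    (hd : 1 ≤ a.natDegree) :
    (mob (a ^ 2 + X) : ℝ) =
      sg (lc a (X * (derivative a) ^ 3) + ((a.natDegree.choose 2 : ℕ) : K)) := by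
  rcases parinf a ha hd with ⟨h1, h2⟩ | ⟨h1, h2⟩
  · rw [h1, sg, if_pos h2]; norm_num
  · rw [h1, sg, if_neg h2]; norm_num

theorem s_parinf : Pool.Agent.H604.LD.S_parinf := by
  intro K _ _ _ d hd
  refine ⟨sg ((d.choose 2 : ℕ) : K), Pool.Agent.H985.KP.Loc2.sg_pm _, ?_⟩
  intro a ha had
  rw [parinf_sg a ha (by rw [had]; exact hd), had, Pool.Agent.H985.KP.Loc2.sg_add, mul_comm]
  rfl

end Pool.Agent.H524.LD
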