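import Mathlib
import Pool.Agent.H524.LD.ParInf
import Pool.Agent.H985.Chow.RT

/-!
# The parity of `a² + X b²` for fixed `b`: the phase at infinity
-/

set_option linter.unusedSectionVars false

namespace Pool.Agent.H524.LD

open Polynomial
open Pool.Agent.H985.Chow
open Pool.Agent.H524 (red emb frobLift AC vdm two_dvd_iff isUnit_iff_red two_ne_zero_witt
  red_frobLift frobLift_emb red_emb)

section gen

variable {R : Type} [CommRing R] [IsDomain R]

/-- Comparison of two sums over roots with the same local data at `E`. -/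
lemma infty {E G₁ G₂ N₁ N₂ P₁ P₂ : R[X]} (k : ℕ) (hE : E.Monic) (hG₁ : G₁.Monic)
    (hG₂ : G₂.Monic) (h₁ : G₁ ∣ N₁ - P₁ * E ^ k) (h₂ : G₂ ∣ N₂ - P₂ * E ^ k)
    (hc₁ : IsCoprime E G₁) (hc₂ : IsCoprime E G₂) (hx : E ^ k ∣ N₁ * G₂ - N₂ * G₁) :
    lc (E ^ k * G₁) N₁ - lc G₁ P₁ = lc (E ^ k * G₂) N₂ - lc G₂ P₂ := by
  obtain ⟨Q₁, hQ₁⟩ := h₁
  obtain ⟨Q₂, hQ₂⟩ := h₂
  rw [RT.one_side k hE hG₁ hQ₁, RT.one_side k hE hG₂ hQ₂]
  have h3 : E ^ k ∣ (Q₁ - Q₂) * (G₁ * G₂) := by
    have e : (Q₁ - Q₂) * (G₁ * G₂) = (N₁ * G₂ - N₂ * G₁) - E ^ k * (P₁ * G₂ - P₂ * G₁) := by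
      linear_combination (-G₂) * hQ₁ + G₁ * hQ₂
    rw [e]
    exact dvd_sub hx (dvd_mul_right _ _)
  have h4 : E ^ k ∣ Q₁ - Q₂ :=
    (IsCoprime.pow_left (IsCoprime.mul_right hc₁ hc₂)).dvd_of_dvd_mul_right h3
  have h5 : lc (E ^ k) Q₁ - lc (E ^ k) Q₂ = 0 := by
    rw [← RT.lc_sub]; exact RT.lc_dvd (hE.pow k) _ h4
  linear_combination h5

lemma lc_C_mul' (G P : R[X]) (t : R) : lc G (C t * P) = t * lc G P := lc_C_mul G P t

lemma lc_congr {G P Q : R[X]} (hG : G.Monic) (h : G ∣ P - Q) : lc G P = lc G Q := by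
  have h5 : lc G P - lc G Q = 0 := by
    rw [← RT.lc_sub]; exact RT.lc_dvd hG _ h
  linear_combination h5

lemma der_top {A : R[X]} (hA : A.Monic) {d : ℕ} (hd : A.natDegree = d) :
    (derivative A).natDegree ≤ d - 1 ∧ (1 ≤ d → (derivative A).coeff (d - 1) = (d : R)) := by
  refine ⟨by rw [← hd]; exact natDegree_derivative_le A, fun h => ?_⟩
  rw [coeff_derivative, show d - 1 + 1 = d by omega]
  have : A.coeff d = 1 := by rw [← hd]; exact hA.coeff_natDegree
  rw [this, one_mul]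
  have h3 : ((d : ℕ) : R) = ((d - 1 + 1 : ℕ) : R) := by
    rw [show d - 1 + 1 = d by omega]
  rw [h3]; push_cast; ring

/-- `P` has degree at most `m` and coefficient `t` at `X ^ m`. -/
def Top (P : R[X]) (m : ℕ) (t : R) : Prop := P.natDegree ≤ m ∧ P.coeff m = t

lemma Top.mul {P Q : R[X]} {m n : ℕ} {s t : R} (hP : Top P m s) (hQ : Top Q n t) :
    Top (P * Q) (m + n) (s * t) := by
  refine ⟨natDegree_mul_le_of_le hP.1 hQ.1, ?_⟩
  rw [coeff_mul_add_eq_of_natDegree_le hP.1 hQ.1, hP.2, hQ.2]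

lemma Top.pow {P : R[X]} {m : ℕ} {s : R} (hP : Top P m s) (k : ℕ) :
    Top (P ^ k) (k * m) (s ^ k) := by
  refine ⟨natDegree_pow_le_of_le k hP.1, ?_⟩
  rw [coeff_pow_of_natDegree_le hP.1, hP.2]

lemma Top.add {P Q : R[X]} {m : ℕ} {s t : R} (hP : Top P m s) (hQ : Top Q m t) :
    Top (P + Q) m (s + t) := by
  refine ⟨(natDegree_add_le _ _).trans (max_le hP.1 hQ.1), ?_⟩
  rw [coeff_add, hP.2, hQ.2]

lemma Top.neg {P : R[X]} {m : ℕ} {s : R} (hP : Top P m s) : Top (-P) m (-s) := by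
  refine ⟨by rw [natDegree_neg]; exact hP.1, ?_⟩
  rw [coeff_neg, hP.2]

lemma Top.lift {P : R[X]} {m n : ℕ} {s : R} (hP : Top P m s) (h : m < n) : Top P n 0 :=
  ⟨hP.1.trans h.le, coeff_eq_zero_of_natDegree_lt (lt_of_le_of_lt hP.1 h)⟩

lemma Top.eq {P : R[X]} {m n : ℕ} {s t : R} (hP : Top P m s) (h : m = n) (h' : s = t) :
    Top P n t := by rw [← h, ← h']; exact hP

lemma top_X : Top (X : R[X]) 1 1 := ⟨natDegree_X_le, coeff_X_one⟩

lemma top_C (c : R) : Top (C c : R[X]) 0 c := ⟨(natDegree_C c).le, coeff_C_zero⟩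

lemma top_zero (m : ℕ) : Top (0 : R[X]) m 0 := ⟨by simp, coeff_zero m⟩

lemma top_monic {A : R[X]} (hA : A.Monic) {d : ℕ} (hd : A.natDegree = d) : Top A d 1 :=
  ⟨hd.le, by rw [← hd]; exact hA.coeff_natDegree⟩

lemma top_der {A : R[X]} (hA : A.Monic) {d : ℕ} (hd : A.natDegree = d) (h : 1 ≤ d) :
    Top (derivative A) (d - 1) (d : R) := ⟨(der_top hA hd).1, (der_top hA hd).2 h⟩

lemma lc_top {G P : R[X]} (hG : G.Monic) {n : ℕ} {t : R} (hd : G.natDegree = n + 1)
    (hP : Top P n t) : lc G P = t := by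
  rw [RT.lc_of_deg hG P (by have := hP.1; omega), hd]
  exact hP.2

lemma G_monic {A B E : R[X]} {c : R} {d β : ℕ} (hB : B = C c * E) (hA : A.Monic)
    (hAd : A.natDegree = d) (hEd : E.natDegree = β) (hd : β < d) :
    (A ^ 2 + X * B ^ 2).Monic ∧ (A ^ 2 + X * B ^ 2).natDegree = 2 * d := by
  have hA2 : (A ^ 2).natDegree = 2 * d := by rw [hA.natDegree_pow, hAd]
  have hBd : B.natDegree ≤ β := by
    rw [hB]; exact (natDegree_C_mul_le _ _).trans hEd.le
  have h1 : (X * B ^ 2).natDegree ≤ 1 + 2 * β :=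
    natDegree_mul_le_of_le natDegree_X_le (natDegree_pow_le_of_le 2 hBd)
  constructor
  · apply (hA.pow 2).add_of_left
    apply degree_lt_degree
    rw [hA2]; omega
  · rw [natDegree_add_eq_left_of_natDegree_lt, hA2]
    rw [hA2]; omega

lemma infty_one {A B E : R[X]} {c : R} {d β : ℕ} (hB : B = C c * E) (hA : A.Monic)
    (hAd : A.natDegree = d) (hEd : E.natDegree = β) (hd : β < d) :
    lc (A ^ 2 + X * B ^ 2) (Kp A B) = (d : R) := by
  obtain ⟨hGm, hGd⟩ := G_monic hB hA hAd hEd hd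
  have hBd : B.natDegree ≤ β := by
    rw [hB]; exact (natDegree_C_mul_le _ _).trans hEd.le
  have hder : (derivative B).natDegree ≤ β :=
    (natDegree_derivative_le B).trans (by omega)
  have t1 : Top (A * derivative A) (2 * d - 1) (d : R) :=
    ((top_monic hA hAd).mul (top_der hA hAd (by omega))).eq (by omega) (one_mul _)
  have t2 : Top (X * B * derivative B) (2 * d - 1) (0 : R) := by
    have h5 : (X * B * derivative B).natDegree < 2 * d - 1 := by
      rcases Nat.eq_zero_or_pos β with h0 | h0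
      · have h6 : derivative B = 0 := derivative_of_natDegree_zero (by omega)
        rw [h6, mul_zero, natDegree_zero]; omega
      · have h6 : (derivative B).natDegree ≤ β - 1 :=
          (natDegree_derivative_le B).trans (by omega)
        have := natDegree_mul_le_of_le (natDegree_mul_le_of_le (natDegree_X_le (R := R)) hBd) h6
        omega
    exact ⟨h5.le, coeff_eq_zero_of_natDegree_lt h5⟩
  refine lc_top hGm (n := 2 * d - 1) (by omega) ?_
  exact (t1.add t2).eq rfl (add_zero _)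

lemma infty_two {A B E : R[X]} {c : R} {d β : ℕ} (hB : B = C c * E) (hA : A.Monic) (hE : E.Monic)
    (hAd : A.natDegree = d) (hEd : E.natDegree = β) (hd : β < d) :
    lc (E ^ 2 * (A ^ 2 + X * B ^ 2)) ((Kp A B) ^ 2) =
      lc (E ^ 2) ((derivative A) ^ 2) + (2 * c ^ 2 * d * β - c ^ 2 * d ^ 2) := by
  obtain ⟨hGm, hGd⟩ := G_monic hB hA hAd hEd hd
  set G := A ^ 2 + X * B ^ 2 with hG
  have hBder : derivative B = C c * derivative E := by
    rw [hB, derivative_C_mul]
  set R' : R[X] := C (c ^ 2) * (-(X * E * (derivative A) ^ 2) +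
    2 * (X * (A * derivative A) * derivative E)) + C (c ^ 4) * (X ^ 2 * E * (derivative E) ^ 2)
    with hR'
  have e1 : (Kp A B) ^ 2 = (derivative A) ^ 2 * G + R' * E := by
    rw [Kp, hBder, hR', hG, hB, C_pow, C_pow]
    ring
  have e2 : E ^ 2 * G = (E * G) * E := by ring
  have hEG : (E * G).Monic := hE.mul hGm
  have hEGd : (E * G).natDegree = β + 2 * d := by rw [hE.natDegree_mul hGm, hEd, hGd]
  rw [e1, RT.lc_add, RT.lc_mul (hE.pow 2) hGm, e2, RT.lc_mul hEG hE]
  congr 1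
  have tE := top_monic hE hEd
  have tA := top_monic hA hAd
  have tA' := top_der hA hAd (by omega)
  have t1 : Top (X * E * (derivative A) ^ 2) (β + 2 * d - 1) ((d : R) ^ 2) :=
    ((top_X.mul tE).mul (tA'.pow 2)).eq (by omega) (by ring)
  have t2 : Top (X * (A * derivative A) * derivative E) (β + 2 * d - 1) ((d : R) * β) := by
    rcases Nat.eq_zero_or_pos β with h0 | h0
    · have h6 : derivative E = 0 := derivative_of_natDegree_zero (by omega)
      rw [h6, mul_zero, h0, Nat.cast_zero, mul_zero]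
      exact top_zero _
    · exact ((top_X.mul (tA.mul tA')).mul (top_der hE hEd h0)).eq (by omega) (by ring)
  have t3 : Top (X ^ 2 * E * (derivative E) ^ 2) (β + 2 * d - 1) (0 : R) := by
    rcases Nat.eq_zero_or_pos β with h0 | h0
    · have h6 : derivative E = 0 := derivative_of_natDegree_zero (by omega)
      rw [h6, zero_pow two_ne_zero, mul_zero]
      exact top_zero _
    · exact (((top_X.pow 2).mul tE).mul ((top_der hE hEd h0).pow 2)).lift (by omega)
  refine lc_top hEG (n := β + 2 * d - 1) (by omega) ?_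
  have t4 : Top (2 * (X * (A * derivative A) * derivative E)) (β + 2 * d - 1)
      (2 * ((d : R) * β)) := by
    have h2 : (2 : R[X]) = C 2 := by rw [map_ofNat]
    rw [h2]
    exact ((top_C (2 : R)).mul t2).eq (by omega) rfl
  exact (((top_C (c ^ 2)).mul (t1.neg.add t4)).eq (zero_add _) rfl |>.add
    (((top_C (c ^ 4)).mul t3).eq (zero_add _) rfl)).eq rfl (by ring)

end gen

section chartwo

variable {K : Type} [Field K] [CharP K 2]

/-- The phase at infinity: the coefficient of `X⁻¹` in `X a' ³ / (a e²)`. -/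
noncomputable def phe (e a : K[X]) : K := lc (e ^ 2 * a) (X * (derivative a) ^ 3)

lemma infty_three {a b e : K[X]} {c : K} {d β : ℕ} (hb : b = C c * e) (ha : a.Monic)
    (he : e.Monic) (had : a.natDegree = d) (hed : e.natDegree = β) (hd : β < d) :
    lc (e ^ 4 * (a ^ 2 + X * b ^ 2)) ((Kp a b) ^ 3) =
      lc (e ^ 4) (Kp a b * (derivative a) ^ 2) + c ^ 2 * phe e a +
        c ^ 4 * (d ^ 3 + d ^ 2 * β + d * β ^ 2) := by
  obtain ⟨hGm, hGd⟩ := G_monic hb ha had hed hd
  set g := a ^ 2 + X * b ^ 2 with hg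
  have h2 := two_KX (K := K)
  have hbder : derivative b = C c * derivative e := by
    rw [hb, derivative_C_mul]
  -- first step
  have e1 : (Kp a b) ^ 3 = (Kp a b * (derivative a) ^ 2) * g + (C (c ^ 2) *
      (X * ((derivative a) ^ 2 + X * (derivative b) ^ 2) * Kp a b)) * e ^ 2 := by
    have e0 : (Kp a b) ^ 2 = (derivative a) ^ 2 * g +
        (C (c ^ 2) * (X * ((derivative a) ^ 2 + X * (derivative b) ^ 2))) * e ^ 2 := by
      rw [Kp, hg, hb, C_pow, ← hb]
      rw [hbder, hb]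
      linear_combination (X * (C c) ^ 2 * a * e * derivative a * derivative e -
        X * (C c) ^ 2 * e ^ 2 * (derivative a) ^ 2) * h2
    calc (Kp a b) ^ 3 = (Kp a b) ^ 2 * Kp a b := by ring
      _ = _ := by rw [e0]; ring
  have hE4 : (e ^ 4 * g) = (e ^ 2 * g) * e ^ 2 := by ring
  have hE2g : (e ^ 2 * g).Monic := (he.pow 2).mul hGm
  have hE2gd : (e ^ 2 * g).natDegree = 2 * β + 2 * d := by
    rw [(he.pow 2).natDegree_mul hGm, he.natDegree_pow, hed, hGd]
  have s1 : lc (e ^ 4 * g) ((Kp a b) ^ 3) = lc (e ^ 4) (Kp a b * (derivative a) ^ 2) +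
      c ^ 2 * lc (e ^ 2 * g) (X * ((derivative a) ^ 2 + X * (derivative b) ^ 2) * Kp a b) := by
    rw [e1, RT.lc_add, RT.lc_mul (he.pow 4) hGm, hE4, RT.lc_mul hE2g (he.pow 2), lc_C_mul']
  -- second step
  have te := top_monic he hed
  have ta := top_monic ha had
  have ta' := top_der ha had (by omega)
  have tb : Top b β c := by
    have h3 := (top_C (R := K) c).mul te
    rw [zero_add, mul_one, ← hb] at h3
    exact h3
  have tb' : 1 ≤ β → Top (derivative b) (β - 1) (c * β) := by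
    intro h
    have h3 := (top_C (R := K) c).mul (top_der he hed h)
    rw [zero_add, ← hbder] at h3
    exact h3
  have hb0 : β = 0 → derivative b = 0 := by
    intro h
    rw [hbder, derivative_of_natDegree_zero (by omega), mul_zero]
  have e3 : X * ((derivative a) ^ 2 + X * (derivative b) ^ 2) * Kp a b =
      X * a * (derivative a) ^ 3 + (X ^ 2 * (derivative a) ^ 2 * b * derivative b +
        X ^ 2 * (derivative b) ^ 2 * (a * derivative a) + X ^ 3 * b * (derivative b) ^ 3) := by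
    rw [Kp]; ring
  have t1 : Top (X ^ 2 * (derivative a) ^ 2 * b * derivative b) (2 * β + 2 * d - 1)
      (c ^ 2 * (d ^ 2 * β)) := by
    rcases Nat.eq_zero_or_pos β with h0 | h0
    · rw [hb0 h0, mul_zero]
      exact (top_zero _).eq rfl (by rw [h0, Nat.cast_zero, mul_zero, mul_zero])
    · exact ((((top_X.pow 2).mul (ta'.pow 2)).mul tb).mul (tb' h0)).eq (by omega) (by ring)
  have t2 : Top (X ^ 2 * (derivative b) ^ 2 * (a * derivative a)) (2 * β + 2 * d - 1)
      (c ^ 2 * (d * β ^ 2)) := by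
    rcases Nat.eq_zero_or_pos β with h0 | h0
    · have : X ^ 2 * (derivative b) ^ 2 * (a * derivative a) = 0 := by
        rw [hb0 h0, zero_pow two_ne_zero, mul_zero, zero_mul]
      rw [this]
      exact (top_zero _).eq rfl (by
        rw [h0, Nat.cast_zero, zero_pow two_ne_zero, mul_zero, mul_zero])
    · exact (((top_X.pow 2).mul ((tb' h0).pow 2)).mul (ta.mul ta')).eq (by omega) (by ring)
  have t3 : Top (X ^ 3 * b * (derivative b) ^ 3) (2 * β + 2 * d - 1) (0 : K) := by
    rcases Nat.eq_zero_or_pos β with h0 | h0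
    · have : X ^ 3 * b * (derivative b) ^ 3 = 0 := by
        rw [hb0 h0, zero_pow three_ne_zero, mul_zero]
      rw [this]
      exact top_zero _
    · exact (((top_X.pow 3).mul tb).mul ((tb' h0).pow 3)).lift (by omega)
  have s2 : lc (e ^ 2 * g) (X * ((derivative a) ^ 2 + X * (derivative b) ^ 2) * Kp a b) =
      lc (e ^ 2 * g) (X * a * (derivative a) ^ 3) + c ^ 2 * (d ^ 2 * β + d * β ^ 2) := by
    have h5 := lc_top hE2g (n := 2 * β + 2 * d - 1) (by omega) ((t1.add t2).add t3)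
    rw [e3, RT.lc_add, h5]
    ring
  -- third step
  have e4 : (X * a * (derivative a) ^ 3) * a = (X * (derivative a) ^ 3) * g +
      (C (c ^ 2) * (X ^ 2 * (derivative a) ^ 3)) * e ^ 2 := by
    rw [hg, hb, C_pow]
    linear_combination (-(X ^ 2 * (derivative a) ^ 3 * (C c) ^ 2 * e ^ 2)) * h2
  have hga : (g * a).Monic := hGm.mul ha
  have hgad : (g * a).natDegree = 3 * d := by rw [hGm.natDegree_mul ha, hGd, had]; ring
  have s3 : lc (e ^ 2 * g) (X * a * (derivative a) ^ 3) = phe e a + c ^ 2 * d ^ 3 := by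
    have e5 : e ^ 2 * g * a = (e ^ 2 * a) * g := by ring
    have e6 : (e ^ 2 * a) * g = (g * a) * e ^ 2 := by ring
    have h5 := lc_top hga (n := 3 * d - 1) (by omega)
      (((top_X.pow 2).mul (ta'.pow 3)).eq (n := 3 * d - 1) (by omega) rfl)
    rw [← RT.lc_mul hE2g ha, e4, RT.lc_add, e5, RT.lc_mul ((he.pow 2).mul ha) hGm, e6,
      RT.lc_mul hga (he.pow 2), lc_C_mul', phe, h5]
    ring
  rw [s1, s2, s3]
  ring

end chartwo

end Pool.Agent.H524.LD
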