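import Mathlib
import Pool.Agent.H524.LD.ParG
import Pool.Agent.H985.Chow.KeyI

/-!
# The parity of `a² + X b²` for fixed `b`: the theorem
-/

set_option linter.unusedSectionVars false

namespace Pool.Agent.H524.LD

open Polynomial
open Pool.Agent.H985.Chow
open Pool.Agent.H524 (red emb frobLift AC vdm two_dvd_iff isUnit_iff_red two_ne_zero_witt
  red_frobLift frobLift_emb red_emb)

variable {K : Type} [Field K] [Fintype K] [CharP K 2]

/-- The data of one polynomial. -/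
lemma side_one (d : ℕ) (c : WittVector 2 K) (hc : red K c ≠ 0) (A B E : (WittVector 2 K)[X])
    (hB : B = C c * E) (hA : A.Monic) (hE : E.Monic) (hAd : A.natDegree = d)
    (hEd : E.natDegree < d) (hcop : IsCoprime (A.map (red K)) (E.map (red K))) :
    ∃ V Y N ℓ1 ℓ2 w : WittVector 2 (AC K),
      frobLift K V = ((mob ((A ^ 2 + X * B ^ 2).map (red K)) : ℤ) : WittVector 2 (AC K)) * V ∧
      red (AC K) V ≠ 0 ∧ frobLift K Y = Y ∧ red (AC K) Y ≠ 0 ∧
      (-1) ^ (2 * d * (2 * d - 1) / 2) * V ^ 2 = Y ^ 2 * N ∧ red (AC K) N = 1 ∧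
      N = 1 + 2 * (d : WittVector 2 (AC K)) + 2 * (d : WittVector 2 (AC K)) ^ 2 +
          2 * ℓ1 - 4 * ℓ2 + 8 * w ∧
      (∃ P : (WittVector 2 (AC K))[X], (A.map (emb K)) ^ 2 + X * (B.map (emb K)) ^ 2 ∣
          (Kp (A.map (emb K)) (B.map (emb K))) ^ 2 - P * (E.map (emb K)) ^ 2 ∧
          (emb K c) ^ 2 * ℓ1 = lc ((A.map (emb K)) ^ 2 + X * (B.map (emb K)) ^ 2) P) ∧
      (∃ p : K[X], (A.map (red K)) ^ 2 + X * (B.map (red K)) ^ 2 ∣
          (Kp (A.map (red K)) (B.map (red K))) ^ 3 - p * (E.map (red K)) ^ 4 ∧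
          red (AC K) ℓ2 = algebraMap K (AC K) ((red K c)⁻¹ ^ 4 *
            lc ((A.map (red K)) ^ 2 + X * (B.map (red K)) ^ 2) p)) ∧
      IsCoprime (E.map (emb K)) ((A.map (emb K)) ^ 2 + X * (B.map (emb K)) ^ 2) ∧
      IsCoprime (E.map (red K)) ((A.map (red K)) ^ 2 + X * (B.map (red K)) ^ 2) := by
  obtain ⟨hGm, hGd⟩ := G_monic hB hA hAd rfl hEd
  have hBr : B.map (red K) = C (red K c) * E.map (red K) := by
    rw [hB, Polynomial.map_mul, map_C]
  have hBe : B.map (emb K) = C (emb K c) * E.map (emb K) := by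
    rw [hB, Polynomial.map_mul, map_C]
  have hcu : IsUnit (C (red K c) : K[X]) := isUnit_C.mpr (IsUnit.mk0 _ hc)
  have hcopB : IsCoprime (A.map (red K)) (B.map (red K)) := by
    rw [hBr]
    exact (isCoprime_mul_unit_left_right hcu _ _).mpr hcop
  obtain ⟨V, Y, N, ℓ1, ℓ2, w, hV, hV0, hYf, hY0, hVY, hN1, hN, hℓ1, hℓ2, hcp⟩ :=
    side sgn (2 * d) (by omega) A B hGm hGd hcopB
  have hgm : ((A ^ 2 + X * B ^ 2).map (red K)).Monic := hGm.map _
  rw [map_G] at hgm
  have hgE : IsCoprime (E.map (red K)) ((A.map (red K)) ^ 2 + X * (B.map (red K)) ^ 2) := by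
    have h1 := isCoprime_f (A.map (red K)) (B.map (red K)) hcopB
    rw [hBr] at h1 ⊢
    exact ((isCoprime_mul_unit_left_right hcu _ _).mp h1).symm
  have hGE : IsCoprime (E.map (emb K)) ((A.map (emb K)) ^ 2 + X * (B.map (emb K)) ^ 2) := by
    have h1 := hcp (E.map (emb K)) (by
      intro x hx
      rw [red_map_map]
      rw [map_G] at hx
      exact coprime_eval hgE x hx)
    rw [map_G] at h1
    exact h1.symm
  refine ⟨V, Y, N, ℓ1, ℓ2, w, ?_, hV0, hYf, hY0, hVY, hN1, ?_, ?_, ?_, hGE, hgE⟩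
  · rw [hV, pow_mul, neg_one_sq, one_pow, one_mul]
  · have hL : lc ((A ^ 2 + X * B ^ 2).map (emb K))
        ((A * derivative A + X * B * derivative B).map (emb K)) = (d : WittVector 2 (AC K)) := by
      rw [lc_map (emb K) hGm]
      have h3 : lc (A ^ 2 + X * B ^ 2) (A * derivative A + X * B * derivative B) =
          (d : WittVector 2 K) := infty_one hB hA hAd rfl hEd
      rw [h3, map_natCast]
    rw [hN, hL]
  · -- the second sum
    obtain ⟨u, v, huv⟩ := (hGE.pow_left (m := 2)).symm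
    have hdv : (A.map (emb K)) ^ 2 + X * (B.map (emb K)) ^ 2 ∣
          (Kp (A.map (emb K)) (B.map (emb K))) ^ 2 -
            ((Kp (A.map (emb K)) (B.map (emb K))) ^ 2 * v) * (E.map (emb K)) ^ 2 := by
      refine ⟨(Kp (A.map (emb K)) (B.map (emb K))) ^ 2 * u, ?_⟩
      linear_combination (-(Kp (A.map (emb K)) (B.map (emb K))) ^ 2) * huv
    refine ⟨(Kp (A.map (emb K)) (B.map (emb K))) ^ 2 * v, hdv, ?_⟩
    have hcu2 : IsUnit (emb K c) := by
      apply isUnit_iff_red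
      rw [red_emb]
      exact fun h => hc ((map_eq_zero _).mp h)
    obtain ⟨c', hc'⟩ := hcu2.exists_right_inv
    have h3 := hℓ1 (C (c' ^ 2) * ((Kp (A.map (emb K)) (B.map (emb K))) ^ 2 * v)) (by
      have e1 : (A * derivative A + X * B * derivative B).map (emb K) =
          Kp (A.map (emb K)) (B.map (emb K)) := map_Kp (emb K) A B
      rw [map_G, e1]
      refine ⟨(Kp (A.map (emb K)) (B.map (emb K))) ^ 2 * u, ?_⟩
      have e2 : C (c' ^ 2) * ((Kp (A.map (emb K)) (B.map (emb K))) ^ 2 * v) *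
          (B.map (emb K)) ^ 2 = (Kp (A.map (emb K)) (B.map (emb K))) ^ 2 * v *
            (E.map (emb K)) ^ 2 := by
        have e3 : C c' * B.map (emb K) = E.map (emb K) := by
          rw [hBe, ← mul_assoc, ← C_mul, mul_comm c', hc', C_1, one_mul]
        rw [← e3, C_pow]
        ring
      rw [e2]
      linear_combination (-(Kp (A.map (emb K)) (B.map (emb K))) ^ 2) * huv)
    rw [h3, lc_C_mul', map_G, ← mul_assoc, ← mul_pow, hc', one_pow, one_mul]
  · -- the third sum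
    obtain ⟨u, v, huv⟩ := (hgE.pow_left (m := 4)).symm
    have hdv : (A.map (red K)) ^ 2 + X * (B.map (red K)) ^ 2 ∣
          (Kp (A.map (red K)) (B.map (red K))) ^ 3 -
            ((Kp (A.map (red K)) (B.map (red K))) ^ 3 * v) * (E.map (red K)) ^ 4 := by
      refine ⟨(Kp (A.map (red K)) (B.map (red K))) ^ 3 * u, ?_⟩
      linear_combination (-(Kp (A.map (red K)) (B.map (red K))) ^ 3) * huv
    refine ⟨(Kp (A.map (red K)) (B.map (red K))) ^ 3 * v, hdv, ?_⟩
    have h3 := hℓ2 ((C ((red K c)⁻¹ ^ 4) * ((Kp (A.map (red K)) (B.map (red K))) ^ 3 * v)).map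
        (algebraMap K (AC K))) (by
      have e1 : (A * derivative A + X * B * derivative B).map (red K) =
          Kp (A.map (red K)) (B.map (red K)) := map_Kp (red K) A B
      have e9 : ((Kp (A.map (red K)) (B.map (red K))).map (algebraMap K (AC K))) ^ 3 -
          ((C ((red K c)⁻¹ ^ 4) * ((Kp (A.map (red K)) (B.map (red K))) ^ 3 * v)).map
            (algebraMap K (AC K))) * ((B.map (red K)).map (algebraMap K (AC K))) ^ 4 =
          ((Kp (A.map (red K)) (B.map (red K))) ^ 3 -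
            (C ((red K c)⁻¹ ^ 4) * ((Kp (A.map (red K)) (B.map (red K))) ^ 3 * v)) *
              (B.map (red K)) ^ 4).map (algebraMap K (AC K)) := by
        simp only [Polynomial.map_sub, Polynomial.map_mul, Polynomial.map_pow]
      rw [map_G, e1, e9]
      apply Polynomial.map_dvd
      refine ⟨(Kp (A.map (red K)) (B.map (red K))) ^ 3 * u, ?_⟩
      have e2 : C ((red K c)⁻¹ ^ 4) * ((Kp (A.map (red K)) (B.map (red K))) ^ 3 * v) *
          (B.map (red K)) ^ 4 = (Kp (A.map (red K)) (B.map (red K))) ^ 3 * v *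
            (E.map (red K)) ^ 4 := by
        have e3 : C (red K c)⁻¹ * B.map (red K) = E.map (red K) := by
          rw [hBr, ← mul_assoc, ← C_mul, inv_mul_cancel₀ hc, C_1, one_mul]
        rw [← e3, C_pow]
        ring
      rw [e2]
      linear_combination (-(Kp (A.map (red K)) (B.map (red K))) ^ 3) * huv)
    rw [h3, map_G, lc_map (algebraMap K (AC K)) hgm, lc_C_mul']

lemma dvd_der {R : Type} [CommRing R] (A E U : R[X]) :
    E ^ 4 ∣ derivative (A + E ^ 5 * U) - derivative A := by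
  have h : derivative (E ^ 5 * U) = E ^ 4 * (5 * derivative E * U + E * derivative U) := by
    rw [derivative_mul, derivative_pow]
    simp only [Nat.add_one_sub_one, Nat.cast_ofNat, map_ofNat]
    ring
  rw [derivative_add, add_sub_cancel_left, h]
  exact dvd_mul_right _ _

/-- **The parity of `a² + X b²`**, `b = c e` fixed, in terms of the phase at infinity. -/
theorem parg (c : K) (hc : c ≠ 0) (e a₁ a₂ : K[X]) (d : ℕ) (he : e.Monic) (hed : e.natDegree < d)
    (ha₁ : a₁.Monic) (hd₁ : a₁.natDegree = d) (ha₂ : a₂.Monic) (hd₂ : a₂.natDegree = d)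
    (hcop : IsCoprime a₁ e) (hdvd : e ^ 5 ∣ a₂ - a₁) :
    (mob (a₁ ^ 2 + X * (C c * e) ^ 2) * mob (a₂ ^ 2 + X * (C c * e) ^ 2) = 1 ∧
        ∃ x : K, x ^ 2 + x = c⁻¹ ^ 2 * (phe e a₁ + phe e a₂)) ∨
      (mob (a₁ ^ 2 + X * (C c * e) ^ 2) * mob (a₂ ^ 2 + X * (C c * e) ^ 2) = -1 ∧
        ¬ ∃ x : K, x ^ 2 + x = c⁻¹ ^ 2 * (phe e a₁ + phe e a₂)) := by
  have h2AC : (2 : AC K) = 0 := two_AC
  obtain ⟨u, hu⟩ := hdvd
  have hae : a₂ = a₁ + e ^ 5 * u := by rw [← hu]; ring
  -- the lifts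
  obtain ⟨cW, hcW⟩ : ∃ cW : WittVector 2 K, red K cW = c :=
    ⟨WittVector.teichmuller 2 c, WittVector.teichmuller_coeff_zero 2 c⟩
  have hcW0 : red K cW ≠ 0 := by rw [hcW]; exact hc
  set E := tl e with hE
  set U := tl u with hU
  have hEm : E.Monic := tl_monic he
  have hEd : E.natDegree = e.natDegree := natDegree_tl he
  have hEr : E.map (red K) = e := map_tl e
  have hUr : U.map (red K) = u := map_tl u
  set A₁ := tl a₁ with hA₁
  have hA₁m : A₁.Monic := tl_monic ha₁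
  have hA₁d : A₁.natDegree = d := by rw [hA₁, natDegree_tl ha₁, hd₁]
  have hA₁r : A₁.map (red K) = a₁ := map_tl a₁
  set A₂ := A₁ + E ^ 5 * U with hA₂
  have hdeg : (E ^ 5 * U).natDegree < d := by
    by_cases hu0 : u = 0
    · have : U = 0 := by rw [hU, hu0, tl_zero]
      rw [this, mul_zero, natDegree_zero]; omega
    · have h1 : (e ^ 5 * u).natDegree < d := by
        rw [← hu]
        have h3 : (a₂ - a₁).degree < a₂.degree := by
          apply degree_sub_lt
          · rw [degree_eq_natDegree ha₁.ne_zero, degree_eq_natDegree ha₂.ne_zero, hd₁, hd₂]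
          · exact ha₂.ne_zero
          · rw [ha₁.leadingCoeff, ha₂.leadingCoeff]
        have h4 : a₂ - a₁ ≠ 0 := by
          rw [hu]; exact mul_ne_zero (pow_ne_zero _ he.ne_zero) hu0
        have h5 := natDegree_lt_natDegree h4 h3
        rwa [hd₂] at h5
      rw [(he.pow 5).natDegree_mul' hu0, he.natDegree_pow] at h1
      have h6 : (E ^ 5 * U).natDegree ≤ 5 * e.natDegree + u.natDegree := by
        refine natDegree_mul_le_of_le ?_ (natDegree_tl_le u)
        rw [hEm.natDegree_pow, hEd]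
      omega
  have hA₂m : A₂.Monic := by
    rw [hA₂]
    apply hA₁m.add_of_left
    apply degree_lt_degree
    rw [hA₁d]; exact hdeg
  have hA₂d : A₂.natDegree = d := by
    rw [hA₂, natDegree_add_eq_left_of_natDegree_lt, hA₁d]
    rw [hA₁d]; exact hdeg
  have hA₂r : A₂.map (red K) = a₂ := by
    rw [hA₂, Polynomial.map_add, Polynomial.map_mul, Polynomial.map_pow, hEr, hUr, hA₁r, hae]
  obtain ⟨B, hB⟩ : ∃ B, B = C cW * E := ⟨_, rfl⟩
  have hBr : B.map (red K) = C c * e := by rw [hB, Polynomial.map_mul, map_C, hEr, hcW]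
  have hcop₂ : IsCoprime a₂ e := by
    rw [hae]
    have h3 : a₁ + e ^ 5 * u = a₁ + (e ^ 4 * u) * e := by ring
    rw [h3]
    exact hcop.add_mul_right_left _
  obtain ⟨V₁, Y₁, N₁, m₁, l₁, w₁, hV₁, hV0₁, hYf₁, hY0₁, hVY₁, hN1₁, hN₁, ⟨P₁, hP₁, hm₁⟩,
    ⟨p₁, hp₁, hl₁⟩, hGE₁, hgE₁⟩ := side_one d cW hcW0 A₁ B E hB hA₁m hEm hA₁d (by rw [hEd]; exact hed)
      (by rw [hA₁r, hEr]; exact hcop)
  obtain ⟨V₂, Y₂, N₂, m₂, l₂, w₂, hV₂, hV0₂, hYf₂, hY0₂, hVY₂, hN1₂, hN₂, ⟨P₂, hP₂, hm₂⟩,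
    ⟨p₂, hp₂, hl₂⟩, hGE₂, hgE₂⟩ := side_one d cW hcW0 A₂ B E hB hA₂m hEm hA₂d (by rw [hEd]; exact hed)
      (by rw [hA₂r, hEr]; exact hcop₂)
  -- the second sum
  have hBe : B.map (emb K) = C (emb K cW) * E.map (emb K) := by
    rw [hB, Polynomial.map_mul, map_C]
  have hA₂e : A₂.map (emb K) = A₁.map (emb K) + (E.map (emb K)) ^ 5 * U.map (emb K) := by
    rw [hA₂, Polynomial.map_add, Polynomial.map_mul, Polynomial.map_pow]
  have hEem : (E.map (emb K)).Monic := hEm.map _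
  have hEed : (E.map (emb K)).natDegree = e.natDegree := by rw [hEm.natDegree_map, hEd]
  have hA₁em : (A₁.map (emb K)).Monic := hA₁m.map _
  have hA₁ed : (A₁.map (emb K)).natDegree = d := by rw [hA₁m.natDegree_map, hA₁d]
  have hA₂em : (A₂.map (emb K)).Monic := hA₂m.map _
  have hA₂ed : (A₂.map (emb K)).natDegree = d := by rw [hA₂m.natDegree_map, hA₂d]
  have hcu2 : emb K cW ≠ 0 := by
    intro h0
    have h3 := red_emb K cW
    rw [h0, map_zero, hcW] at h3
    exact hc ((map_eq_zero _).mp h3.symm)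
  have hm : m₁ = m₂ := by
    have hG₁m := (G_monic hBe hA₁em hA₁ed hEed hed).1
    have hG₂m := (G_monic hBe hA₂em hA₂ed hEed hed).1
    have h3 := infty 2 hEem hG₁m hG₂m hP₁ hP₂ hGE₁ hGE₂ (by
      have h4 := dvd_cross (A₁.map (emb K)) (B.map (emb K)) (E.map (emb K)) (U.map (emb K)) 2
      rw [← hA₂e] at h4
      exact (pow_dvd_pow _ (by norm_num)).trans h4)
    have i₁ := infty_two hBe hA₁em hEem hA₁ed hEed hed
    have i₂ := infty_two hBe hA₂em hEem hA₂ed hEed hed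
    have h5 : lc ((E.map (emb K)) ^ 2) ((derivative (A₂.map (emb K))) ^ 2) =
        lc ((E.map (emb K)) ^ 2) ((derivative (A₁.map (emb K))) ^ 2) := by
      apply lc_congr (hEem.pow 2)
      have h6 := dvd_der (A₁.map (emb K)) (E.map (emb K)) (U.map (emb K))
      rw [← hA₂e] at h6
      have h7 : (E.map (emb K)) ^ 2 ∣ derivative (A₂.map (emb K)) - derivative (A₁.map (emb K)) :=
        (pow_dvd_pow _ (by norm_num)).trans h6
      have h8 := h7.mul_right (derivative (A₂.map (emb K)) + derivative (A₁.map (emb K)))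
      have h9 : (derivative (A₂.map (emb K))) ^ 2 - (derivative (A₁.map (emb K))) ^ 2 =
        (derivative (A₂.map (emb K)) - derivative (A₁.map (emb K))) *
          (derivative (A₂.map (emb K)) + derivative (A₁.map (emb K))) := by ring
      rw [h9]; exact h8
    rw [i₁, i₂, h5, ← hm₁, ← hm₂] at h3
    have h10 : (emb K cW) ^ 2 * m₁ = (emb K cW) ^ 2 * m₂ := by linear_combination -h3
    exact mul_left_cancel₀ (pow_ne_zero 2 hcu2) h10
  -- the third sum
  have hbc : C c * e = C c * e := rfl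
  have hl : red (AC K) l₁ - red (AC K) l₂ =
      algebraMap K (AC K) (c⁻¹ ^ 2 * (phe e a₁ - phe e a₂)) := by
    rw [hA₁r, hBr, hEr] at hp₁ hgE₁
    rw [hA₁r, hBr, hcW] at hl₁
    rw [hA₂r, hBr, hEr] at hp₂ hgE₂
    rw [hA₂r, hBr, hcW] at hl₂
    have hG₁m := (G_monic (B := C c * e) rfl ha₁ hd₁ rfl hed).1
    have hG₂m := (G_monic (B := C c * e) rfl ha₂ hd₂ rfl hed).1
    have h3 := infty 4 he hG₁m hG₂m hp₁ hp₂ hgE₁ hgE₂ (by
      have h4 := dvd_cross a₁ (C c * e) e u 3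
      rw [← hae] at h4
      exact h4)
    have i₁ := infty_three (b := C c * e) rfl ha₁ he hd₁ rfl hed
    have i₂ := infty_three (b := C c * e) rfl ha₂ he hd₂ rfl hed
    have h5 : lc (e ^ 4) (Kp a₂ (C c * e) * (derivative a₂) ^ 2) =
        lc (e ^ 4) (Kp a₁ (C c * e) * (derivative a₁) ^ 2) := by
      apply lc_congr (he.pow 4)
      have h6 := dvd_der a₁ e u
      rw [← hae] at h6
      have h7 := dvd_Kp_diff a₁ (C c * e) e u
      rw [← hae] at h7
      have h9 : Kp a₂ (C c * e) * (derivative a₂) ^ 2 - Kp a₁ (C c * e) * (derivative a₁) ^ 2 =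
        (Kp a₂ (C c * e) - Kp a₁ (C c * e)) * (derivative a₂) ^ 2 +
          (derivative a₂ - derivative a₁) * ((derivative a₂ + derivative a₁) *
            Kp a₁ (C c * e)) := by ring
      rw [h9]
      exact dvd_add (h7.mul_right _) (h6.mul_right _)
    rw [i₁, i₂, h5] at h3
    rw [hl₁, hl₂, ← map_sub]
    congr 1
    have h10 : c⁻¹ * c = 1 := inv_mul_cancel₀ hc
    have h11 : lc (a₁ ^ 2 + X * (C c * e) ^ 2) p₁ - lc (a₂ ^ 2 + X * (C c * e) ^ 2) p₂ =
        c ^ 2 * (phe e a₁ - phe e a₂) := by linear_combination -h3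
    calc c⁻¹ ^ 4 * lc (a₁ ^ 2 + X * (C c * e) ^ 2) p₁ -
          c⁻¹ ^ 4 * lc (a₂ ^ 2 + X * (C c * e) ^ 2) p₂
        = c⁻¹ ^ 4 * (lc (a₁ ^ 2 + X * (C c * e) ^ 2) p₁ -
          lc (a₂ ^ 2 + X * (C c * e) ^ 2) p₂) := by ring
      _ = c⁻¹ ^ 2 * (phe e a₁ - phe e a₂) * (c⁻¹ * c) ^ 2 := by rw [h11]; ring
      _ = _ := by rw [h10]; ring
  -- conclusion
  rw [map_G, hA₁r, hBr] at hV₁
  rw [map_G, hA₂r, hBr] at hV₂
  have hsq₁ : Squarefree (a₁ ^ 2 + X * (C c * e) ^ 2) := by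
    apply squarefree_f
    exact (isCoprime_mul_unit_left_right (isUnit_C.mpr (IsUnit.mk0 _ hc)) _ _).mpr hcop
  have hsq₂ : Squarefree (a₂ ^ 2 + X * (C c * e) ^ 2) := by
    apply squarefree_f
    exact (isCoprime_mul_unit_left_right (isUnit_C.mpr (IsUnit.mk0 _ hc)) _ _).mpr hcop₂
  obtain ⟨x, hx, hx'⟩ := sign_step (V₁ * Y₂) (V₂ * Y₁) N₁ N₂ (-(l₁ - l₂))
    (mob (a₁ ^ 2 + X * (C c * e) ^ 2)) (mob (a₂ ^ 2 + X * (C c * e) ^ 2))
    (mob_pm hsq₁) (mob_pm hsq₂)
    (by rw [map_mul, hV₁, hYf₂]; ring) (by rw [map_mul, hV₂, hYf₁]; ring)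
    (by rw [map_mul]; exact mul_ne_zero hV0₂ hY0₁)
    (by
      linear_combination (-(V₁ ^ 2)) * hVY₂ + V₂ ^ 2 * hVY₁)
    hN1₂ (by
      rw [hN₁, hN₂, hm]
      exact ⟨w₁ - w₂, by ring⟩)
  have hz : red (AC K) (-(l₁ - l₂)) =
      algebraMap K (AC K) (c⁻¹ ^ 2 * (phe e a₁ + phe e a₂)) := by
    rw [map_neg, map_sub, hl, map_mul, map_mul, map_sub, map_add]
    linear_combination (-(algebraMap K (AC K) (c⁻¹ ^ 2) * algebraMap K (AC K) (phe e a₁))) * h2AC
  obtain ⟨w', hw', hfin⟩ := last_step x 0 (red (AC K) (-(l₁ - l₂))) (red (AC K) (-(l₁ - l₂)))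
    (mob (a₁ ^ 2 + X * (C c * e) ^ 2) * mob (a₂ ^ 2 + X * (C c * e) ^ 2)) hx (by ring) (by
      rw [zero_pow (Fintype.card_ne_zero)]) (by
      rw [hz, ← map_pow, FiniteField.pow_card]) hx'
  have hw'' : w' = c⁻¹ ^ 2 * (phe e a₁ + phe e a₂) := by
    apply (algebraMap K (AC K)).injective
    rw [hw', hz]
  rw [hw''] at hfin
  exact hfin

end Pool.Agent.H524.LD
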