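import Mathlib
import Pool.Agent.H524.LD.ParH
import Pool.Agent.H604.LD.StmG

/-!
# The parity of `a² + X b²` for fixed `b`: task PARINFG
-/

namespace Pool.Agent.H524.LD

open Polynomial
open scoped Classical
open Pool.Agent.H985.Chow
open Pool.Agent.H985.KP (sg)

variable {K : Type} [Field K] [Fintype K] [CharP K 2]

theorem parg_sg (c : K) (hc : c ≠ 0) (e a₁ a₂ : K[X]) (d : ℕ) (he : e.Monic)
    (hed : e.natDegree < d) (ha₁ : a₁.Monic) (hd₁ : a₁.natDegree = d) (ha₂ : a₂.Monic)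
    (hd₂ : a₂.natDegree = d) (hcop : IsCoprime a₁ e) (hdvd : e ^ 5 ∣ a₂ - a₁) :
    (mob (a₁ ^ 2 + X * (C c * e) ^ 2) : ℝ) * (mob (a₂ ^ 2 + X * (C c * e) ^ 2) : ℝ) =
      sg (c⁻¹ ^ 2 * phe e a₁) * sg (c⁻¹ ^ 2 * phe e a₂) := by
  rw [← Pool.Agent.H985.KP.Loc2.sg_add, ← mul_add]
  rcases parg c hc e a₁ a₂ d he hed ha₁ hd₁ ha₂ hd₂ hcop hdvd with ⟨h1, h2⟩ | ⟨h1, h2⟩
  · rw [sg, if_pos h2]; exact_mod_cast h1
  · rw [sg, if_neg h2]; exact_mod_cast h1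

theorem mob_sq {c : K} (hc : c ≠ 0) {a e : K[X]} (hcop : IsCoprime a e) :
    (mob (a ^ 2 + X * (C c * e) ^ 2) : ℝ) * (mob (a ^ 2 + X * (C c * e) ^ 2) : ℝ) = 1 := by
  have hsq : Squarefree (a ^ 2 + X * (C c * e) ^ 2) := by
    apply squarefree_f
    exact (isCoprime_mul_unit_left_right (isUnit_C.mpr (IsUnit.mk0 _ hc)) _ _).mpr hcop
  rcases mob_pm hsq with h | h <;> rw [h] <;> norm_num

/-- **Task PARINFG** of helper604. -/
theorem s_parinfg : Pool.Agent.H604.LD.S_parinfg := by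
  intro K _ _ _ γ b a₀ d hγ hb hcop hbd
  by_cases hex : ∃ a : K[X], a.Monic ∧ a.natDegree = d ∧ b ^ 5 ∣ a - a₀
  · obtain ⟨a₁, ha₁, hd₁, hdv₁⟩ := hex
    have hcop' : ∀ a : K[X], b ^ 5 ∣ a - a₀ → IsCoprime a b := by
      intro a ⟨t, ht⟩
      have h3 : a = a₀ + (b ^ 4 * t) * b := by linear_combination ht
      rw [h3]
      exact hcop.add_mul_right_left _
    have hc₁ := hcop' a₁ hdv₁
    refine ⟨(mob (a₁ ^ 2 + X * (C γ * b) ^ 2) : ℝ) * sg (γ⁻¹ ^ 2 * phe b a₁), ?_, ?_⟩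
    · have h1 := mob_sq hγ hc₁
      have h2 := Pool.Agent.H985.KP.Loc2.sg_mul_self (γ⁻¹ ^ 2 * phe b a₁)
      have h3 : ((mob (a₁ ^ 2 + X * (C γ * b) ^ 2) : ℝ) * sg (γ⁻¹ ^ 2 * phe b a₁)) ^ 2 = 1 := by
        linear_combination (sg (γ⁻¹ ^ 2 * phe b a₁)) ^ 2 * h1 + h2
      exact sq_eq_one_iff.mp h3
    · intro a ha had hdv
      have h3 := parg_sg γ hγ b a₁ a d hb (by omega) ha₁ hd₁ ha had hc₁ (by
        have h4 := dvd_sub hdv hdv₁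
        have h5 : a - a₀ - (a₁ - a₀) = a - a₁ := by ring
        rwa [h5] at h4)
      have h1 := mob_sq hγ hc₁
      have h6 : Pool.Agent.H604.LD.phg γ b a = γ⁻¹ ^ 2 * phe b a := by
        rw [Pool.Agent.H604.LD.phg, phe, mul_comm a]
      rw [h6, Pool.Agent.H604.LD.fa]
      linear_combination (-(mob (a ^ 2 + X * (C γ * b) ^ 2) : ℝ)) * h1 +
        (mob (a₁ ^ 2 + X * (C γ * b) ^ 2) : ℝ) * h3
  · refine ⟨1, Or.inl rfl, fun a ha had hdv => ?_⟩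
    exact absurd ⟨a, ha, had, hdv⟩ hex

end Pool.Agent.H524.LD
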