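import Mathlib
import Pool.Agent.H985.Chow.KeyM
import Pool.Agent.H985.Chow.Sgn

/-!
# Project Landau in characteristic two (helper604): the parity of `a² + X`
-/

namespace Pool.Agent.H524.LD

open Polynomial
open Pool.Agent.H985.Chow
open Pool.Agent.H524 (red emb frobLift AC vdm two_dvd_iff isUnit_iff_red two_ne_zero_witt
  red_frobLift frobLift_emb red_emb)

section lc

lemma lc_map {R S : Type} [CommRing R] [CommRing S] [Nontrivial S] (φ : R →+* S) {G : R[X]}
    (hG : G.Monic) (P : R[X]) : lc (G.map φ) (P.map φ) = φ (lc G P) := by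
  rw [lc, lc, hG.natDegree_map φ, ← map_modByMonic φ hG, coeff_map]

variable {K : Type} [Field K] [CharP K 2]

lemma two_K : (2 : K) = 0 := by
  have := CharP.cast_eq_zero K 2
  exact_mod_cast this

lemma two_KX : (2 : K[X]) = 0 := by
  have h1 : (2 : K[X]) = C 2 := by rw [map_ofNat]
  rw [h1, two_K, C_0]

/-- The reduction from `a² + X` to `a`. -/
lemma lc_step (a : K[X]) (ha : a.Monic) (hd : 1 ≤ a.natDegree) :
    lc (a ^ 2 + X) (X * a * (derivative a) ^ 3) =
      lc a (X * (derivative a) ^ 3) + (a.natDegree : K) := by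
  obtain ⟨d, hdd⟩ : ∃ d, a.natDegree = d := ⟨_, rfl⟩
  have h2 := two_KX (K := K)
  set Q := (X * (derivative a) ^ 3) /ₘ a with hQ
  set R := (X * (derivative a) ^ 3) %ₘ a with hR
  have hQR : R + a * Q = X * (derivative a) ^ 3 := modByMonic_add_div _ _
  have ha1 : a ≠ 1 := by
    intro h; rw [h, natDegree_one] at hd; omega
  have hRd : R.natDegree < d := by
    rw [← hdd]; exact natDegree_modByMonic_lt _ ha ha1
  have hder : (derivative a).natDegree ≤ d - 1 := by
    rw [← hdd]; exact natDegree_derivative_le a
  have hder3 : ((derivative a) ^ 3).natDegree ≤ 3 * (d - 1) :=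
    natDegree_pow_le_of_le 3 hder
  have hXd : (X * (derivative a) ^ 3).natDegree ≤ 3 * (d - 1) + 1 := by
    refine natDegree_mul_le.trans ?_
    rw [natDegree_X]; omega
  have hQd : Q.natDegree ≤ 2 * d - 2 := by
    rw [hQ, natDegree_divByMonic _ ha, hdd]
    omega
  have hdercoef : (derivative a).coeff (d - 1) = (d : K) := by
    rw [coeff_derivative, show d - 1 + 1 = d by omega]
    have : a.coeff d = 1 := by rw [← hdd]; exact ha.coeff_natDegree
    rw [this, one_mul]
    have h3 : ((d : ℕ) : K) = ((d - 1 + 1 : ℕ) : K) := by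
      rw [show d - 1 + 1 = d by omega]
    rw [h3]; push_cast; ring
  have hd3 : ((derivative a) ^ 3).coeff (3 * (d - 1)) = (d : K) := by
    rw [coeff_pow_of_natDegree_le hder, hdercoef]
    -- d^3 = d in characteristic two
    rcases Nat.even_or_odd d with he | ho
    · have : (d : K) = 0 := by
        obtain ⟨k, hk⟩ := he
        rw [hk]; push_cast
        linear_combination (k : K) * two_K (K := K)
      rw [this]; ring
    · have : (d : K) = 1 := by
        obtain ⟨k, hk⟩ := ho
        rw [hk]; push_cast
        linear_combination (k : K) * two_K (K := K)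
      rw [this]; ring
  have hXcoef : (X * (derivative a) ^ 3).coeff (3 * (d - 1) + 1) = (d : K) := by
    rw [coeff_X_mul, hd3]
  have hQcoef : Q.coeff (2 * d - 2) = (d : K) := by
    have h3 := congrArg (fun F => F.coeff (3 * (d - 1) + 1)) hQR
    simp only [coeff_add] at h3
    rw [hXcoef, coeff_eq_zero_of_natDegree_lt (by omega : R.natDegree < 3 * (d - 1) + 1),
      zero_add] at h3
    have h4 : (a * Q).coeff (3 * (d - 1) + 1) = a.coeff d * Q.coeff (2 * d - 2) := by
      have := coeff_mul_add_eq_of_natDegree_le (df := d) (dg := 2 * d - 2) (f := a) (g := Q)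
        (by omega) hQd
      rw [← this]
      congr 1
      omega
    rw [h4, ← hdd, ha.coeff_natDegree, one_mul, hdd] at h3
    exact h3
  -- the monic polynomial
  have ha2d : (a ^ 2).natDegree = 2 * d := by
    rw [ha.natDegree_pow, hdd]
  have hgm : (a ^ 2 + X).Monic := by
    apply (ha.pow 2).add_of_left
    apply degree_lt_degree
    rw [natDegree_X, ha2d]; omega
  have hgd : (a ^ 2 + X).natDegree = 2 * d := by
    rw [natDegree_add_eq_left_of_natDegree_lt, ha2d]
    rw [natDegree_X, ha2d]; omega
  have hXQ : (X * Q).natDegree ≤ 2 * d - 1 := by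
    refine natDegree_mul_le.trans ?_
    rw [natDegree_X]; omega
  have hRa : (R * a).natDegree ≤ 2 * d - 1 := by
    refine natDegree_mul_le.trans ?_
    rw [hdd]; omega
  have hmod : (X * a * (derivative a) ^ 3) %ₘ (a ^ 2 + X) = R * a - X * Q := by
    have h3 := (div_modByMonic_unique (f := X * a * (derivative a) ^ 3) (g := a ^ 2 + X) Q
      (R * a - X * Q) hgm ⟨by linear_combination a * hQR, by
        apply degree_lt_degree
        rw [hgd]
        refine lt_of_le_of_lt (natDegree_sub_le _ _) ?_
        exact max_lt (by omega) (by omega)⟩).2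
    exact h3
  rw [lc, hmod, hgd, coeff_sub, lc, ← hR, hdd]
  have e1 : (R * a).coeff (2 * d - 1) = R.coeff (d - 1) := by
    have := coeff_mul_add_eq_of_natDegree_le (df := d - 1) (dg := d) (f := R) (g := a)
        (by omega) (by omega)
    rw [← hdd, ha.coeff_natDegree, hdd, mul_one] at this
    rw [← this]
    congr 1
    omega
  have e2 : (X * Q).coeff (2 * d - 1) = Q.coeff (2 * d - 2) := by
    rw [show 2 * d - 1 = (2 * d - 2) + 1 by omega, coeff_X_mul]
  rw [e1, e2, hQcoef]
  linear_combination (-(d : K)) * two_K (K := K)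

end lc

section par

variable {K : Type} [Field K] [Fintype K] [CharP K 2]

/-- **The parity of `a² + X`.** -/
theorem parinf (a : K[X]) (ha : a.Monic) (hd : 1 ≤ a.natDegree) :
    ((mob (a ^ 2 + X) = 1 ∧
        ∃ x : K, x ^ 2 + x = lc a (X * (derivative a) ^ 3) + ((a.natDegree.choose 2 : ℕ) : K)) ∨
      (mob (a ^ 2 + X) = -1 ∧
        ¬ ∃ x : K, x ^ 2 + x = lc a (X * (derivative a) ^ 3) +
          ((a.natDegree.choose 2 : ℕ) : K))) := by
  obtain ⟨d, hdd⟩ : ∃ d, a.natDegree = d := ⟨_, rfl⟩
  have h2 := two_KX (K := K)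
  have h2AC : (2 : AC K) = 0 := two_AC
  set A := tl a with hA
  have hAm : A.Monic := tl_monic ha
  have hAd : A.natDegree = d := by rw [hA, natDegree_tl ha, hdd]
  have hAr : A.map (red K) = a := map_tl a
  have hGred : (A ^ 2 + X * 1 ^ 2).map (red K) = a ^ 2 + X := by
    rw [Polynomial.map_add, Polynomial.map_pow, Polynomial.map_mul, Polynomial.map_pow,
      Polynomial.map_one, hAr, map_X]
    ring
  have hA2d : (A ^ 2).natDegree = 2 * d := by
    rw [hAm.natDegree_pow, hAd]
  have hGm : (A ^ 2 + X * 1 ^ 2).Monic := by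
    rw [one_pow, mul_one]
    apply (hAm.pow 2).add_of_left
    apply degree_lt_degree
    rw [natDegree_X, hA2d]; omega
  have hGd : (A ^ 2 + X * 1 ^ 2).natDegree = 2 * d := by
    rw [one_pow, mul_one, natDegree_add_eq_left_of_natDegree_lt, hA2d]
    rw [natDegree_X, hA2d]; omega
  obtain ⟨V, Y, N, ℓ1, ℓ2, w, hV, hV0, hYf, hY0, hVY, hN1, hN, hℓ1, hℓ2, -⟩ :=
    side sgn (2 * d) (by omega) A 1 hGm hGd (by
      rw [Polynomial.map_one]; exact isCoprime_one_right)
  -- the first sum
  have hL : lc ((A ^ 2 + X * 1 ^ 2).map (emb K))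
      ((A * derivative A + X * 1 * derivative 1).map (emb K)) = (d : WittVector 2 (AC K)) := by
    rw [lc_map (emb K) hGm]
    have hAA : (A * derivative A + X * 1 * derivative 1 : (WittVector 2 K)[X]) =
        A * derivative A := by
      rw [derivative_one, mul_zero, add_zero]
    rw [hAA]
    have hder : (derivative A).natDegree ≤ d - 1 := by
      rw [← hAd]; exact natDegree_derivative_le A
    have hdercoef : (derivative A).coeff (d - 1) = (d : WittVector 2 K) := by
      rw [coeff_derivative, show d - 1 + 1 = d by omega]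
      have : A.coeff d = 1 := by rw [← hAd]; exact hAm.coeff_natDegree
      rw [this, one_mul]
      have h3 : ((d : ℕ) : WittVector 2 K) = ((d - 1 + 1 : ℕ) : WittVector 2 K) := by
        rw [show d - 1 + 1 = d by omega]
      rw [h3]; push_cast; ring
    have hnd : (A * derivative A).natDegree ≤ 2 * d - 1 := by
      refine natDegree_mul_le.trans ?_
      omega
    rw [lc_eq_coeff (n := 2 * d) (by omega) hGm hGd hnd]
    have e1 : (A * derivative A).coeff (2 * d - 1) = (derivative A).coeff (d - 1) := by
      have := coeff_mul_add_eq_of_natDegree_le (df := d) (dg := d - 1) (f := A)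
        (g := derivative A) (by omega) hder
      rw [← hAd, hAm.coeff_natDegree, hAd, one_mul] at this
      rw [← this]
      congr 1
      omega
    rw [e1, hdercoef, map_natCast]
  -- the second sum
  have hℓ1v : ℓ1 = -((d : WittVector 2 (AC K)) ^ 2) := by
    have hP := hℓ1 ((-(X * (derivative A) ^ 2)).map (emb K)) (by
      have h3 : ((A * derivative A + X * 1 * derivative 1).map (emb K)) ^ 2 -
          ((-(X * (derivative A) ^ 2)).map (emb K)) * ((1 : (WittVector 2 K)[X]).map (emb K)) ^ 2
          = ((A ^ 2 + X * 1 ^ 2).map (emb K)) * (((derivative A) ^ 2).map (emb K)) := by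
        rw [← Polynomial.map_pow, ← Polynomial.map_pow, ← Polynomial.map_mul,
          ← Polynomial.map_sub, ← Polynomial.map_mul]
        congr 1
        rw [derivative_one]
        ring
      exact ⟨_, h3⟩)
    rw [hP, lc_map (emb K) hGm]
    have hder : (derivative A).natDegree ≤ d - 1 := by
      rw [← hAd]; exact natDegree_derivative_le A
    have hdercoef : (derivative A).coeff (d - 1) = (d : WittVector 2 K) := by
      rw [coeff_derivative, show d - 1 + 1 = d by omega]
      have : A.coeff d = 1 := by rw [← hAd]; exact hAm.coeff_natDegree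
      rw [this, one_mul]
      have h3 : ((d : ℕ) : WittVector 2 K) = ((d - 1 + 1 : ℕ) : WittVector 2 K) := by
        rw [show d - 1 + 1 = d by omega]
      rw [h3]; push_cast; ring
    have hder2 : ((derivative A) ^ 2).natDegree ≤ 2 * (d - 1) := natDegree_pow_le_of_le 2 hder
    have hnd : (-(X * (derivative A) ^ 2)).natDegree ≤ 2 * d - 1 := by
      rw [natDegree_neg]
      refine natDegree_mul_le.trans ?_
      have : (X : (WittVector 2 K)[X]).natDegree = 1 := natDegree_X
      omega
    rw [lc_eq_coeff (n := 2 * d) (by omega) hGm hGd hnd]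
    have e1 : (-(X * (derivative A) ^ 2)).coeff (2 * d - 1) = -((d : WittVector 2 K) ^ 2) := by
      rw [coeff_neg, show 2 * d - 1 = 2 * (d - 1) + 1 by omega, coeff_X_mul,
        coeff_pow_of_natDegree_le hder, hdercoef]
    rw [e1, map_neg, map_pow, map_natCast]
  -- the third sum
  have hgm : (a ^ 2 + X).Monic := by
    rw [← hGred]; exact hGm.map (red K)
  have hℓ2v : red (AC K) ℓ2 = algebraMap K (AC K) (lc a (X * (derivative a) ^ 3) + (d : K)) := by
    have hp := hℓ2 ((X * a * (derivative a) ^ 3).map (algebraMap K (AC K))) (by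
      have h3 : (((A * derivative A + X * 1 * derivative 1).map (red K)).map
            (algebraMap K (AC K))) ^ 3 -
          ((X * a * (derivative a) ^ 3).map (algebraMap K (AC K))) *
            (((1 : (WittVector 2 K)[X]).map (red K)).map (algebraMap K (AC K))) ^ 4
          = (((A ^ 2 + X * 1 ^ 2).map (red K)).map (algebraMap K (AC K))) *
            ((a * (derivative a) ^ 3).map (algebraMap K (AC K))) := by
        rw [hGred]
        simp only [Polynomial.map_one, one_pow, mul_one]
        rw [← Polynomial.map_pow, ← Polynomial.map_sub, ← Polynomial.map_mul]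
        congr 1
        rw [derivative_one, mul_zero, add_zero, Polynomial.map_mul, hAr, ← derivative_map, hAr]
        linear_combination (-(X * a * derivative a ^ 3)) * h2
      exact ⟨_, h3⟩)
    rw [hp, hGred, lc_map (algebraMap K (AC K)) hgm, lc_step a ha hd, hdd]
  have hsq : Squarefree (a ^ 2 + X) := by
    have h3 := squarefree_f a 1 isCoprime_one_right
    rwa [one_pow, mul_one] at h3
  have hmob : mob (a ^ 2 + X) = 1 ∨ mob (a ^ 2 + X) = -1 := mob_pm hsq
  have hmV : frobLift K V = ((mob (a ^ 2 + X) : ℤ) : WittVector 2 (AC K)) * V := by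
    rw [hV, hGred, pow_mul, neg_one_sq, one_pow, one_mul]
  -- the constant
  obtain ⟨e, he, hered⟩ : ∃ e : WittVector 2 (AC K),
      1 + 2 * (d : WittVector 2 (AC K)) = (-1) ^ d + 4 * e ∧
      red (AC K) e = ((d.choose 2 : ℕ) : AC K) + (d : AC K) := by
    rcases Nat.even_or_odd' d with ⟨k, hk | hk⟩
    · refine ⟨(k : WittVector 2 (AC K)), ?_, ?_⟩
      · rw [hk, pow_mul, neg_one_sq, one_pow]; push_cast; ring
      · have hch : (d.choose 2) + k = 2 * (k * k) := by
          rw [Nat.choose_two_right, hk]
          rcases k with _ | k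
          · rfl
          · have : 2 * (k + 1) * (2 * (k + 1) - 1) / 2 = (k + 1) * (2 * k + 1) := by
              rw [show 2 * (k + 1) * (2 * (k + 1) - 1) = 2 * ((k + 1) * (2 * k + 1)) by
                rw [show 2 * (k + 1) - 1 = 2 * k + 1 by omega]; ring]
              exact Nat.mul_div_cancel_left _ (by norm_num)
            rw [this]; ring
        have h3 : ((d.choose 2 : ℕ) : AC K) + (k : AC K) = 2 * ((k : AC K) * k) := by
          exact_mod_cast congrArg (fun t : ℕ => (t : AC K)) hch
        rw [map_natCast]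
        have h4 : (d : AC K) = 2 * (k : AC K) := by rw [hk]; push_cast; ring
        rw [h4]
        linear_combination (-1 : AC K) * h3 - ((k : AC K) * k) * h2AC
    · refine ⟨(k : WittVector 2 (AC K)) + 1, ?_, ?_⟩
      · rw [hk, pow_succ, pow_mul, neg_one_sq, one_pow]; push_cast; ring
      · have hch : (d.choose 2) + k = 2 * (k * k + k) := by
          rw [Nat.choose_two_right, hk]
          have : (2 * k + 1) * (2 * k + 1 - 1) / 2 = (2 * k + 1) * k := by
            rw [show (2 * k + 1) * (2 * k + 1 - 1) = 2 * ((2 * k + 1) * k) by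
              rw [show 2 * k + 1 - 1 = 2 * k by omega]; ring]
            exact Nat.mul_div_cancel_left _ (by norm_num)
          rw [this]; ring
        have h3 : ((d.choose 2 : ℕ) : AC K) + (k : AC K) = 2 * ((k : AC K) * k + k) := by
          exact_mod_cast congrArg (fun t : ℕ => (t : AC K)) hch
        rw [map_add, map_natCast, map_one]
        have h4 : (d : AC K) = 2 * (k : AC K) + 1 := by rw [hk]; push_cast; ring
        rw [h4]
        linear_combination (-1 : AC K) * h3 - ((k : AC K) * k + k) * h2AC
  have hpar : ((-1 : WittVector 2 (AC K)) ^ (2 * d * (2 * d - 1) / 2)) = (-1) ^ d := by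
    have h3 : 2 * d * (2 * d - 1) / 2 = (2 * (d - 1) + 1) * d := by
      rw [show 2 * d * (2 * d - 1) = 2 * ((2 * (d - 1) + 1) * d) by
        rw [show 2 * d - 1 = 2 * (d - 1) + 1 by omega]; ring]
      exact Nat.mul_div_cancel_left _ (by norm_num)
    rw [h3, pow_mul, pow_succ, pow_mul, neg_one_sq, one_pow, one_mul]
  obtain ⟨x, hx, hx'⟩ := sign_step V Y N ((-1 : WittVector 2 (AC K)) ^ (2 * d * (2 * d - 1) / 2))
    (e - ℓ2) (mob (a ^ 2 + X)) 1 hmob (Or.inl rfl) hmV (by rw [hYf]; push_cast; ring) hY0
    (by rw [← hVY]; ring) (by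
      rw [map_pow, map_neg, map_one]
      have : (-1 : AC K) = 1 := by linear_combination -h2AC
      rw [this, one_pow]) (by
      rw [hN, hL, hℓ1v, hpar]
      refine ⟨w, ?_⟩
      linear_combination he)
  rw [mul_one] at hx'
  have hz : red (AC K) (e - ℓ2) = algebraMap K (AC K) (lc a (X * (derivative a) ^ 3) +
      ((d.choose 2 : ℕ) : K)) := by
    rw [map_sub, hered, hℓ2v, map_add, map_add, map_natCast, map_natCast]
    linear_combination (-(algebraMap K (AC K)) (lc a (X * derivative a ^ 3))) * h2AC
  obtain ⟨w', hw', hfin⟩ := last_step x 0 (red (AC K) (e - ℓ2)) (red (AC K) (e - ℓ2))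
    (mob (a ^ 2 + X)) hx (by ring) (by
      rw [zero_pow (Fintype.card_ne_zero)]) (by
      rw [hz, ← map_pow, FiniteField.pow_card]) hx'
  have hw'' : w' = lc a (X * (derivative a) ^ 3) + ((d.choose 2 : ℕ) : K) := by
    apply (algebraMap K (AC K)).injective
    rw [hw', hz]
  rw [hw''] at hfin
  rw [hdd]
  exact hfin

end par

end Pool.Agent.H524.LD
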